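import Pool.Agent.W385.TT.Fibres

/-!
# Residues of Frobenius averages for fibrations, over all number fields

`K` is a number field, the base is affine space with coordinates `t_σ` (an open part of the base
`𝒴 = ℙ^m`, `m = #σ`), and `C₁, …, C_r` are hyperelliptic curves `y² = f_i(x)` over `K(t_σ)`, with
`f_i ∈ 𝒪_K[t_σ][x]` of odd degree `2 g_i + 1 ≥ 3` in `x` (all elliptic curves over `K(t_σ)` are of this
kind).  For a number field `L ⊇ K` and `d = (d₁, …, d_r)`, `d_i ∈ L^*`, the generic fibre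
`X_d = ∏ C_{i, d_i}` over `L(t_σ)` is the product of the quadratic twists `d_i y² = f_i(x)`.  By the
Künneth formula `H²` of a smooth fibre is the sum of `r` lines and of the spaces `H¹ ⊗ H¹` of the
pairs `i < j`.

On the algebraic side, there is one finite Galois extension `M` of `K` which controls the ranks of
all `NS(X_d / L(t_σ))`: if no `√(d_i d_j)`, `i < j`, lies in `L M`, the rank is `r`, and in general it
is the rank for a twist `e` over `L ∩ M`.  The theorem is the analytic counterpart, for the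
residues at `s = 2` of the series `F(s)` of the question.
-/

set_option autoImplicit false

namespace Pool.Agent.Results.MP_6090f9_nt.AllNumberFields

open NumberField IsDedekindDomain Filter Topology Polynomial
open scoped TensorProduct

section
variable {L : Type} [Field L] [NumberField L] {σ : Type}

/-- The value of `N ∈ 𝒪_L[t_σ]` at a point `t` with coordinates in the residue field of `v`. -/
noncomputable def value (v : HeightOneSpectrum (𝓞 L)) (t : σ → 𝓞 L ⧸ v.asIdeal)
    (N : MvPolynomial σ (𝓞 L)) : 𝓞 L ⧸ v.asIdeal :=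
  MvPolynomial.eval₂Hom (Ideal.Quotient.mk v.asIdeal) t N

/-- The polynomial `f(t, x)` over the residue field of `v`, for a point `t` of the base. -/
noncomputable def fibre (v : HeightOneSpectrum (𝓞 L)) (t : σ → 𝓞 L ⧸ v.asIdeal)
    (f : (MvPolynomial σ (𝓞 L))[X]) : (𝓞 L ⧸ v.asIdeal)[X] :=
  f.map (MvPolynomial.eval₂Hom (Ideal.Quotient.mk v.asIdeal) t)

/-- Trace of the Frobenius on `H¹` of the smooth projective curve `d y² = f(t, x)` over the residue
field of `v`: it is `q + 1` minus the number of points, and there is one point at infinity. -/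
noncomputable def traceH1 (v : HeightOneSpectrum (𝓞 L)) (t : σ → 𝓞 L ⧸ v.asIdeal)
    (f : (MvPolynomial σ (𝓞 L))[X]) (d : 𝓞 L) : ℤ :=
  (Ideal.absNorm v.asIdeal : ℤ) - Nat.card {P : (𝓞 L ⧸ v.asIdeal) × (𝓞 L ⧸ v.asIdeal) //
    Ideal.Quotient.mk v.asIdeal d * P.2 ^ 2 = (fibre v t f).eval P.1}

/-- The pairs `i < j` of indices. -/
def pairs (r : ℕ) : Finset (Fin r × Fin r) := Finset.univ.filter fun p => p.1 < p.2

open Classical in
/-- The trace of the Frobenius on `H²` of the fibre over `t` of the product of the fibrations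
`d_i y² = f_i(t, x)`, by the Künneth formula.  For the points `t` with `N(t) = 0`, where the fibre may
be singular, only the part `r q` is taken. -/
noncomputable def traceH2 {r : ℕ} (v : HeightOneSpectrum (𝓞 L)) (t : σ → 𝓞 L ⧸ v.asIdeal)
    (f : Fin r → (MvPolynomial σ (𝓞 L))[X]) (d : Fin r → 𝓞 L) (N : MvPolynomial σ (𝓞 L)) : ℤ :=
  r * (Ideal.absNorm v.asIdeal : ℤ) + if value v t N = 0 then 0 else
    ∑ p ∈ pairs r, traceH1 v t (f p.1) (d p.1) * traceH1 v t (f p.2) (d p.2)

/-- The average `𝔅_v = q^{-m} ∑_t b_v(fibre over t)`, `m = #σ`. -/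
noncomputable def fibreAverage [Fintype σ] {r : ℕ} (f : Fin r → (MvPolynomial σ (𝓞 L))[X])
    (d : Fin r → 𝓞 L) (N : MvPolynomial σ (𝓞 L)) (v : HeightOneSpectrum (𝓞 L)) : ℝ :=
  (∑ᶠ t : σ → 𝓞 L ⧸ v.asIdeal, (traceH2 v t f d N : ℝ)) /
    (Ideal.absNorm v.asIdeal : ℝ) ^ Fintype.card σ

open Classical in
/-- The series `F(s) = ∑_{v ∉ R} 𝔅_v log(q_v) q_v^{-s}` of the question, for real `s > 2`. -/
noncomputable def F [Fintype σ] {r : ℕ} (f : Fin r → (MvPolynomial σ (𝓞 L))[X])
    (d : Fin r → 𝓞 L) (N : MvPolynomial σ (𝓞 L)) (R : Finset (HeightOneSpectrum (𝓞 L)))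
    (s : ℝ) : ℝ :=
  ∑' v : HeightOneSpectrum (𝓞 L), if v ∈ R then 0 else
    fibreAverage f d N v * Real.log (Ideal.absNorm v.asIdeal : ℝ) *
      (Ideal.absNorm v.asIdeal : ℝ) ^ (-s)

end

section
variable {K : Type} [Field K] [NumberField K] {σ : Type} {r : ℕ}

/-- The polynomials `f_i`, read over the extension `L` of `K`. -/
noncomputable def polyOver (L : Type) [Field L] [NumberField L] [Algebra K L]
    (f : Fin r → (MvPolynomial σ (𝓞 K))[X]) (i : Fin r) : (MvPolynomial σ (𝓞 L))[X] :=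
  (f i).map (MvPolynomial.map (algebraMap (𝓞 K) (𝓞 L)))

variable (K r) in
/-- A twist `d` over the number field `L`, `K ⊆ L`, together with a finite set `R` of primes of `L`
that contains the divisors of `2` and of all `d_i`. -/
structure Twist (L : IntermediateField K (AlgebraicClosure K)) [NumberField L] where
  d : Fin r → 𝓞 L
  d_ne_zero : ∀ i, d i ≠ 0
  R : Finset (HeightOneSpectrum (𝓞 L))
  good : ∀ v, v ∉ R → (2 : 𝓞 L) ∉ v.asIdeal ∧ ∀ i, d i ∉ v.asIdeal

/-- `(s - 2) F(s)` for the fibration `X_d` over `L`. -/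
noncomputable def Twist.residueAt [Fintype σ] {L : IntermediateField K (AlgebraicClosure K)}
    [NumberField L] (V : Twist K r L) (f : Fin r → (MvPolynomial σ (𝓞 K))[X])
    (N : MvPolynomial σ (𝓞 K)) (s : ℝ) : ℝ :=
  (s - 2) * F (polyOver L f) V.d (MvPolynomial.map (algebraMap (𝓞 K) (𝓞 L)) N) V.R s

/-- `d_i d_j` as an element of the algebraic closure of `K`. -/
noncomputable def dd {L : IntermediateField K (AlgebraicClosure K)} (d : Fin r → 𝓞 L)
    (i j : Fin r) : AlgebraicClosure K := (((d i * d j : 𝓞 L) : L) : AlgebraicClosure K)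

/-- The twists `d` over `L` and `e` over `L₀` (`L₀ = L ∩ M` below): for all `i < j`, either
`d_i d_j e_i e_j` is a square in `L` and `√(e_i e_j) ∈ M`, or `√(d_i d_j) ∉ L M` and
`√(e_i e_j) ∉ M`. -/
def Related (M : IntermediateField K (AlgebraicClosure K))
    {L L₀ : IntermediateField K (AlgebraicClosure K)} (d : Fin r → 𝓞 L) (e : Fin r → 𝓞 L₀) :
    Prop :=
  ∀ i j, i < j → ((∃ u ∈ L, u ^ 2 = dd d i j * dd e i j) ∧ ∃ t ∈ M, t ^ 2 = dd e i j) ∨
    ((∀ y ∈ L ⊔ M, y ^ 2 ≠ dd d i j) ∧ ∀ y ∈ M, y ^ 2 ≠ dd e i j)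

/-- The intertwining number of the representations of `Gal(K̄/K)` induced from the quadratic
characters of `L(√D)/L` and `L'(√D')/L'`: the number of the simple factors of `L ⊗_K L'` in which
`D ⊗ D'` is a square. -/
noncomputable def intertwining (K L L' : Type) [Field K] [Field L] [Algebra K L] [Field L']
    [Algebra K L'] (D : L) (D' : L') : ℕ :=
  Nat.card {m : MaximalSpectrum (L ⊗[K] L') // IsSquare (Ideal.Quotient.mk m.asIdeal (D ⊗ₜ D'))}

/-- The Gram number `∑_{i < j} 2 g_i · 2 g_j · I_ij` of two twists, where `I_ij` is the intertwining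
number for `d_i d_j` and `d'_i d'_j`. -/
noncomputable def gram (f : Fin r → (MvPolynomial σ (𝓞 K))[X])
    {L L' : IntermediateField K (AlgebraicClosure K)} (d : Fin r → 𝓞 L) (d' : Fin r → 𝓞 L') : ℝ :=
  ∑ p ∈ pairs r, (((f p.1).natDegree : ℝ) - 1) * (((f p.2).natDegree : ℝ) - 1) *
    (intertwining K L L' ((d p.1 * d p.2 : 𝓞 L) : L) ((d' p.1 * d' p.2 : 𝓞 L') : L') : ℝ)

/-- `M` governs the numbers `ρ` for all `X_d / L(t_σ)` with `(L, d)` in the class `P`, up to `1/k`.

1. If no `√(d_i d_j)`, `i < j`, lies in `L M`, then `|ρ(d / L) - r| < 1/k`.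

2. If `e` over `L₀ = L ∩ M` is related to `d`, then `|ρ(d / L) - ρ(e / L₀)| < 1/k`.

3. There is a list of at most `2^((r² + 1)([M : K] + 1))` twists `e` over subfields of `M` such that
every twist `d` over a number field `L ⊇ K` is related to a member of the list over `L ∩ M`. -/
def Governs (k : ℕ) (M : IntermediateField K (AlgebraicClosure K))
    (P : ∀ (L : IntermediateField K (AlgebraicClosure K)) [NumberField L],
      (Fin r → 𝓞 L) → Prop)
    (ρ : ∀ (L : IntermediateField K (AlgebraicClosure K)) [NumberField L], Twist K r L → ℝ) :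
    Prop :=
  (∀ (L : IntermediateField K (AlgebraicClosure K)) [NumberField L] (V : Twist K r L),
    P L V.d → (∀ i j, i < j → ∀ y ∈ L ⊔ M, y ^ 2 ≠ dd V.d i j) → |ρ L V - r| < 1 / k) ∧
  (∀ (L L₀ : IntermediateField K (AlgebraicClosure K)) [NumberField L] [NumberField L₀],
    L₀ = L ⊓ M → ∀ (V : Twist K r L) (W : Twist K r L₀), P L V.d → P L₀ W.d →
      Related M V.d W.d → |ρ L V - ρ L₀ W| < 1 / k) ∧
  ∃ (l : ℕ) (G : Fin l → IntermediateField K (AlgebraicClosure K)) (e : ∀ a, Fin r → 𝓞 (G a)),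
    l ≤ 2 ^ ((r ^ 2 + 1) * (Module.finrank K M + 1)) ∧
    (∀ a, G a ≤ M ∧ NumberField (G a) ∧ ∀ i, e a i ≠ 0) ∧
    ∀ (L : IntermediateField K (AlgebraicClosure K)) [NumberField L] (d : Fin r → 𝓞 L),
      (∀ i, d i ≠ 0) → ∃ a, G a = L ⊓ M ∧ Related M d (e a)

end

section
variable {K : Type} [Field K] [NumberField K] {r : ℕ}

instance instNFsub (L : {L : IntermediateField K (AlgebraicClosure K) // NumberField L}) :
    NumberField L.1 := L.2

variable (K r) in
/-- all twists over all number fields -/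
abbrev Ind : Type :=
  Σ L : {L : IntermediateField K (AlgebraicClosure K) // NumberField L}, Twist K r L.1

theorem countable_Ind : Countable (Ind K r) := by
  have h := Pool.Agent.W385.TT.countable_data K (Fin r)
  let g : Ind K r → (Σ L : {L : IntermediateField K (AlgebraicClosure K) // NumberField L},
      (Fin r → 𝓞 L.1) × Finset (HeightOneSpectrum (𝓞 L.1))) := fun i => ⟨i.1, (i.2.d, i.2.R)⟩
  have hg : Function.Injective g := by
    rintro ⟨L, ⟨d, h1, R, h2⟩⟩ ⟨L', ⟨d', h1', R', h2'⟩⟩ h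
    have e1 : L = L' := congrArg Sigma.fst h
    subst e1
    have e2 := eq_of_heq (Sigma.mk.inj h).2
    have e3 : d = d' := congrArg Prod.fst e2
    have e4 : R = R' := congrArg Prod.snd e2
    subst e3
    subst e4
    rfl
  exact hg.countable

/-- passage to the helper library -/
noncomputable def toDat (i : Ind K r) : Pool.Agent.W385.TT.Dat K (Fin r) :=
  ⟨i.1.1, i.1.2, i.2.d, i.2.d_ne_zero⟩

variable {σ : Type} [Fintype σ]

theorem residue_eq (f : Fin r → (MvPolynomial σ (𝓞 K))[X]) (N : MvPolynomial σ (𝓞 K))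
    (i : Ind K r) (s : ℝ) : i.2.residueAt f N s = (s - 2) *
      Pool.Agent.H126V.FC.DS i.2.R (fun v => Pool.Agent.H126V.FD.BB
        (fun j => (f j).map (Pool.Agent.W385.TT.cF i.1.1 σ)) i.2.d
        (Pool.Agent.W385.TT.cF i.1.1 σ N) v / Pool.Agent.H921R2.TatePole.nm v) (s - 1) := by
  classical
  unfold Twist.residueAt F Pool.Agent.H126V.FC.DS Pool.Agent.H126V.FC.term
  congr 1
  refine tsum_congr fun v => ?_
  by_cases h : v ∈ i.2.R
  · rw [if_pos h, if_pos h]
  · rw [if_neg h, if_neg h]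
    have hq : (0 : ℝ) < Pool.Agent.H921R2.TatePole.nm v := Pool.Agent.H126T.nm_pos' v
    have e1 : -(s - 1) = -s + 1 := by ring
    rw [e1, Real.rpow_add hq, Real.rpow_one]
    have e2 : fibreAverage (polyOver i.1.1 f) i.2.d
        (MvPolynomial.map (algebraMap (𝓞 K) (𝓞 i.1.1)) N) v = Pool.Agent.H126V.FD.BB
        (fun j => (f j).map (Pool.Agent.W385.TT.cF i.1.1 σ)) i.2.d
        (Pool.Agent.W385.TT.cF i.1.1 σ N) v := rfl
    have e3 : (Ideal.absNorm v.asIdeal : ℝ) = Pool.Agent.H921R2.TatePole.nm v := rfl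
    rw [e2, e3]
    field_simp

end

open Pool.Agent.W385.TT in
/-- **Residues of the Frobenius averages of fibrations over all number fields.**
Let `N ≠ 0` be a polynomial in `𝒪_K[t_σ]` such that, outside characteristic `2`, the fibres over the
points with `N ≠ 0` are smooth, and let `B = ∑_{i < j} 2 g_i · 2 g_j`.  Every sequence of real numbers
which tends to `2` from the right has a subsequence along which `(s - 2) F(s)` converges for all
twists `X_d` over all number fields `L ⊇ K`; the limits `ρ(X_d / L)` satisfy the following.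

(A) For finitely many twists `V_k` over number fields `L_k` and real numbers `a_k`,
`(∑ a_k (ρ(V_k / L_k) - r))² ≤ B ∑_{k, l} a_k a_l gram(V_k, V_l)`.

(B) Let `n ≥ 0`, `k ≥ 1`, and let `P` be a class of pairs `(L, d)`, `L` a number field containing
`K`, `d` a twist over `L`, such that for every pair `[L : K] ≤ n` or, for all `i < j`, the
representation of `Gal(K̄/K)` induced from the quadratic character of `L(√(d_i d_j))/L` has
intertwining number at most `n` with itself; for instance all `(L, d)` with `[L : K] ≤ n`.  Then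
there is a finite Galois extension `M` of `K` that governs the numbers `ρ` for all pairs in `P` up to
`1/k`.  If `[L : K] ≤ m` for all pairs in `P`, then the degree of `M` is at most
`((4^r m)!)^(2 n (k B)²)`. -/
theorem result (K : Type) [Field K] [NumberField K] (σ : Type) [Fintype σ] (r : ℕ)
    (f : Fin r → (MvPolynomial σ (𝓞 K))[X])
    (hodd : ∀ i, Odd (f i).natDegree) (h3 : ∀ i, 3 ≤ (f i).natDegree)
    (N : MvPolynomial σ (𝓞 K)) (_hN0 : N ≠ 0)
    (hN : ∀ (E : Type) [Field E] (ι : 𝓞 K →+* E) (t : σ → E), ι 2 ≠ 0 →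
      MvPolynomial.eval₂ ι t N ≠ 0 → ∀ i, MvPolynomial.eval₂ ι t (f i).leadingCoeff ≠ 0 ∧
        ((f i).map (MvPolynomial.eval₂Hom ι t)).Separable)
    (B : ℕ) (hB : B = ∑ p ∈ pairs r, ((f p.1).natDegree - 1) * ((f p.2).natDegree - 1))
    (s₀ : ℕ → ℝ) (hs₀ : Tendsto s₀ atTop (𝓝[>] 2)) :
    ∃ (φ : ℕ → ℕ) (ρ : ∀ (L : IntermediateField K (AlgebraicClosure K)) [NumberField L],
        Twist K r L → ℝ), StrictMono φ ∧
      (∀ (L : IntermediateField K (AlgebraicClosure K)) [NumberField L] (V : Twist K r L),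
        Tendsto (fun m => V.residueAt f N (s₀ (φ m))) atTop (𝓝 (ρ L V))) ∧
      (∀ (κ : Type) (S : Finset κ) (L : κ → IntermediateField K (AlgebraicClosure K))
        [∀ k, NumberField (L k)] (V : ∀ k, Twist K r (L k)) (a : κ → ℝ),
        (∑ k ∈ S, a k * (ρ (L k) (V k) - r)) ^ 2 ≤
          B * ∑ k ∈ S, ∑ l ∈ S, a k * a l * gram f (V k).d (V l).d) ∧
      ∀ (n k : ℕ), 1 ≤ k →
        ∀ P : (∀ (L : IntermediateField K (AlgebraicClosure K)) [NumberField L],
          (Fin r → 𝓞 L) → Prop),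
        (∀ (L : IntermediateField K (AlgebraicClosure K)) [NumberField L] (d : Fin r → 𝓞 L),
          P L d → Module.finrank K L ≤ n ∨ ∀ i j, i < j →
            intertwining K L L ((d i * d j : 𝓞 L) : L) ((d i * d j : 𝓞 L) : L) ≤ n) →
        ∀ m : ℕ, ∃ M : IntermediateField K (AlgebraicClosure K),
          FiniteDimensional K M ∧ IsGalois K M ∧
          ((∀ (L : IntermediateField K (AlgebraicClosure K)) [NumberField L] (d : Fin r → 𝓞 L),
            P L d → Module.finrank K L ≤ m) →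
              Module.finrank K M ≤ (4 ^ r * m).factorial ^ (2 * n * (k * B) ^ 2)) ∧
          Governs k M P ρ := by
  classical
  have hLoc : Loc f N := fun E _ ι t h1 h2 i => (hN E ι t h1 h2 i).1
  have hNb : (B : ℝ) = ∑ p ∈ pairs r, Pool.Agent.H126V.FD.bb f p := by
    rw [hB]
    push_cast
    refine Finset.sum_congr rfl fun p _ => ?_
    unfold Pool.Agent.H126V.FD.bb
    rw [Nat.cast_sub (by have := h3 p.1; omega), Nat.cast_sub (by have := h3 p.2; omega)]
    push_cast
    ring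
  have hbnn : ∀ j ∈ Pool.Agent.H126T.pairs r, 0 ≤ Pool.Agent.H126V.FD.bb f j :=
    fun j _ => (Pool.Agent.H126V.FD.bb_pos h3 j).le
  have hmem : ∀ {i j : Fin r}, i < j → (i, j) ∈ Pool.Agent.H126T.pairs r := by
    intro i j hij
    exact Finset.mem_filter.2 ⟨Finset.mem_univ _, hij⟩
  have hlt : ∀ {p : Fin r × Fin r}, p ∈ Pool.Agent.H126T.pairs r → p.1 < p.2 := fun h =>
    (Finset.mem_filter.1 h).2
  have hcount : Countable (Ind K r) := countable_Ind
  have hgood : ∀ i : Ind K r, ∀ v, v ∉ i.2.R → ∀ j, (2 : 𝓞 (toDat i).F) ∉ v.asIdeal ∧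
      (toDat i).d j ∉ v.asIdeal := fun i v hv j => ⟨(i.2.good v hv).1, (i.2.good v hv).2 j⟩
  let av : Ind K r → Av K (Pool.Agent.H126T.pairs r) (tF f N) (Pool.Agent.H126V.FD.bb f) r :=
    fun i => avF hodd h3 hLoc (toDat i) i.2.R (hgood i)
  have havg : ∀ (i : Ind K r) (s : ℝ), (av i).res (s - 1) = i.2.residueAt f N s - r := by
    intro i s
    rw [residue_eq]
    have e : s - 1 - 1 = s - 2 := by ring
    unfold Av.res
    rw [e]
    rfl
  have hshift : Tendsto (fun s : ℝ => s - 1) (𝓝[>] 2) (𝓝[>] 1) := by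
    rw [tendsto_nhdsWithin_iff]
    constructor
    · have h : Tendsto (fun s : ℝ => s - 1) (𝓝 2) (𝓝 (2 - 1)) := tendsto_id.sub_const 1
      have e : (2 : ℝ) - 1 = 1 := by norm_num
      rw [e] at h
      exact h.mono_left nhdsWithin_le_nhds
    · filter_upwards [self_mem_nhdsWithin] with s hs
      have hs' : (2 : ℝ) < s := hs
      show (1 : ℝ) < s - 1
      linarith
  obtain ⟨φ, hφ, ρ', hlim, hBes⟩ := subseq (fun i j : Ind K r => (av i).G (av j)) (B : ℝ)
    (fun i s => (av i).res s) (fun κ S g a η hη => by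
      rw [hNb]
      exact Av.res_ineq hbnn (fun j _ x => abs_tF hodd h3 hLoc j x) S (fun k => av (g k)) a hη)
    (fun m => s₀ m - 1) (hshift.comp hs₀)
  have hBe : Bes AP (Pool.Agent.H126T.pairs r) (Pool.Agent.H126V.FD.bb f)
      (toDat (K := K) (r := r)) ρ' (B : ℝ) := hBes
  refine ⟨φ, fun L hL V => r + ρ' ⟨⟨L, hL⟩, V⟩, hφ, ?_, ?_, ?_⟩
  · intro L hL V
    have h1 := (hlim ⟨⟨L, hL⟩, V⟩).const_add (r : ℝ)
    refine h1.congr fun m => ?_
    rw [havg]
    ring
  · intro κ S L hL V a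
    have h1 := hBe κ S (fun k => ⟨⟨L k, hL k⟩, V k⟩) a
    have e1 : ∀ k ∈ S, a k * (r + ρ' ⟨⟨L k, hL k⟩, V k⟩ - r) = a k * ρ' ⟨⟨L k, hL k⟩, V k⟩ := by
      intro k _
      ring
    rw [Finset.sum_congr rfl e1]
    refine h1.trans (le_of_eq ?_)
    congr 1
    refine Finset.sum_congr rfl fun k _ => Finset.sum_congr rfl fun l _ => ?_
    congr 1
    unfold GD Gn gram
    refine Finset.sum_congr rfl fun p hp => ?_
    rw [D_AP _ hp, D_AP _ hp]
    rfl
  · intro n k hk P hP m
    have hkR : (0 : ℝ) < k := by exact_mod_cast hk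
    have hdiv : ∀ {x : ℝ}, (k : ℝ) * |x| < 1 → |x| < 1 / k := by
      intro x hx
      rw [lt_div_iff₀ hkR, mul_comm]
      exact hx
    obtain ⟨M, hM1, hM2, hdeg, hA, hC⟩ := stab' hbnn hNb hBe n k m
      (fun i => P i.1.1 i.2.d)
    have hBd : ∀ i : Ind K r, P i.1.1 i.2.d → Bd AP (Pool.Agent.H126T.pairs r) n (toDat i) := by
      intro i h
      rcases hP i.1.1 i.2.d h with h1 | h1
      · exact Bd_of_finrank h1
      · intro j hj
        have := h1 j.1 j.2 (hlt hj)
        rw [D_AP _ hj]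
        exact this
    have hpr : ∀ (i : Ind K r) {a c : Fin r}, a < c → (toDat i).pr AP (a, c) = dd i.2.d a c := by
      intro i a c hac
      unfold Dat.pr
      rw [D_AP _ (hmem hac)]
      rfl
    have hsep : Algebra.IsSeparable K M := inferInstance
    refine ⟨M, hM1, IsGalois.mk, fun h => ?_, ?_, ?_, ?_⟩
    · have := hdeg fun i hi => h i.1.1 i.2.d hi
      rwa [Fintype.card_fin] at this
    · intro L hL V hV hcond
      have h1 := hA ⟨⟨L, hL⟩, V⟩ (hBd _ hV) hV (fun j hj y hy => by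
        rw [hpr ⟨⟨L, hL⟩, V⟩ (hlt hj)]
        exact hcond j.1 j.2 (hlt hj) y hy)
      have e1 : r + ρ' ⟨⟨L, hL⟩, V⟩ - r = ρ' ⟨⟨L, hL⟩, V⟩ := by ring
      rw [e1]
      exact hdiv h1
    · intro L L₀ hL hL₀ hLL V W hV hW hR
      have h1 := hC ⟨⟨L, hL⟩, V⟩ ⟨⟨L₀, hL₀⟩, W⟩ hLL (hBd _ hV) (hBd _ hW) hV (fun j hj => by
        rw [hpr ⟨⟨L, hL⟩, V⟩ (hlt hj), hpr ⟨⟨L₀, hL₀⟩, W⟩ (hlt hj)]
        exact hR j.1 j.2 (hlt hj))
      have e1 : r + ρ' ⟨⟨L, hL⟩, V⟩ - (r + ρ' ⟨⟨L₀, hL₀⟩, W⟩) =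
          ρ' ⟨⟨L, hL⟩, V⟩ - ρ' ⟨⟨L₀, hL₀⟩, W⟩ := by ring
      rw [e1]
      exact hdiv h1
    · obtain ⟨l, s, hl, hs⟩ := Pool.Agent.W353.TP.finite_types (r := r) M
      refine ⟨l, fun a => (s a).G, fun a => (s a).e, hl,
        fun a => ⟨(s a).le, (s a).nf, (s a).he⟩, fun L _ d hd => ?_⟩
      obtain ⟨a, ha, hR⟩ := hs L d hd
      exact ⟨a, ha, fun i j hij => hR (i, j) (hmem hij)⟩

end Pool.Agent.Results.MP_6090f9_nt.AllNumberFields
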